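import Pool.Agent.T2h69.LL.LP

/-!
# LB: a representation generated by a nonzero harmonic vector is irreducible
-/

set_option autoImplicit false
set_option linter.all false

noncomputable section

open IsDedekindDomain WithZero

namespace Pool.Agent.T2h66.LL

namespace LBx

open LAx LPx

variable {F : Type} [Field F] {v : Valuation F ℤᵐ⁰} {ϖ : Fˣ} {V : Type} [AddCommGroup V]
  [Module ℂ V] {ρ : Representation ℂ (GL (Fin 2) F) V} {x : V}

/-- the combinations of the vectors of the balls of level `m` -/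
def L (ϖ : Fˣ) (ρ : Representation ℂ (GL (Fin 2) F) V) (x : V) (m : ℤ) : (F →₀ ℂ) →ₗ[ℂ] V :=
  Finsupp.linearCombination ℂ (fun a => vb ϖ ρ x a m)

theorem L_apply (m : ℤ) (f : F →₀ ℂ) : L ϖ ρ x m f = ∑ a ∈ f.support, f a • vb ϖ ρ x a m := by
  unfold L
  rw [Finsupp.linearCombination_apply]
  rfl

theorem L_single (m : ℤ) (a : F) (c : ℂ) : L ϖ ρ x m (Finsupp.single a c) = c • vb ϖ ρ x a m := by
  unfold L
  rw [Finsupp.linearCombination_single]

theorem range_le (hϖ : v ϖ = exp (-1 : ℤ)) (h : Harm v ϖ ρ x) (m : ℤ) :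
    LinearMap.range (L ϖ ρ x m) ≤ LinearMap.range (L ϖ ρ x (m + 1)) := by
  unfold L
  rw [Finsupp.range_linearCombination, Finsupp.range_linearCombination, Submodule.span_le]
  rintro _ ⟨a, rfl⟩
  show vb ϖ ρ x a m ∈ _
  rw [p2 hϖ h]
  exact add_mem (Submodule.subset_span ⟨_, rfl⟩) (Submodule.subset_span ⟨_, rfl⟩)

theorem range_mono (hϖ : v ϖ = exp (-1 : ℤ)) (h : Harm v ϖ ρ x) :
    Monotone fun m : ℤ => LinearMap.range (L ϖ ρ x m) :=
  monotone_int_of_le_succ fun m => range_le hϖ h m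

/-- every vector is a combination of vectors of balls of the same level -/
theorem exists_rep (hϖ : v ϖ = exp (-1 : ℤ)) (h : Harm v ϖ ρ x) (hg : Gen ρ x) (y : V) :
    ∃ (m : ℤ) (f : F →₀ ℂ), L ϖ ρ x m f = y := by
  have h1 : (⊤ : Submodule ℂ V) ≤ ⨆ m : ℤ, LinearMap.range (L ϖ ρ x m) := by
    rw [← (show Submodule.span ℂ (Set.range fun g => ρ g x) = ⊤ from hg), Submodule.span_le]
    rintro _ ⟨g, rfl⟩
    obtain ⟨s, -, a, m, h2⟩ := p6 hϖ h g
    show ρ g x ∈ _
    rw [h2]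
    refine Submodule.smul_mem _ _ (Submodule.mem_iSup_of_mem m ⟨Finsupp.single a 1, ?_⟩)
    rw [L_single, one_smul]
  have h2 := h1 (Submodule.mem_top : y ∈ ⊤)
  rw [Submodule.mem_iSup_of_directed _ (range_mono hϖ h).directed_le] at h2
  obtain ⟨m, f, hf⟩ := h2
  exact ⟨m, f, hf⟩

/-- the value of `2` -/
theorem v_two (hr : Res2 v) : v (2 : F) < 1 := by
  have h1 := hr (-1) (by rw [Valuation.map_neg, map_one])
  have h2 : (-1 - 1 : F) = -2 := by norm_num
  rwa [h2, Valuation.map_neg] at h1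

theorem lt_exp_iff {z : ℤᵐ⁰} {m : ℤ} : z < exp (-m) ↔ z ≤ exp (-(m + 1)) := by
  rcases eq_or_ne z 0 with rfl | hz
  · constructor
    · intro _; exact zero_le'
    · intro _; exact WithZero.exp_pos
  · rw [← WithZero.exp_log hz, WithZero.exp_lt_exp, WithZero.exp_le_exp]
    omega

section min

variable {y : V} {m : ℤ} {f : F →₀ ℂ}

/-- a representation of minimal length -/
def Mn (ϖ : Fˣ) (ρ : Representation ℂ (GL (Fin 2) F) V) (x y : V) (m : ℤ) (f : F →₀ ℂ) : Prop :=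
  L ϖ ρ x m f = y ∧ ∀ (m' : ℤ) (f' : F →₀ ℂ), L ϖ ρ x m' f' = y → f.support.card ≤ f'.support.card

theorem exists_min (hϖ : v ϖ = exp (-1 : ℤ)) (h : Harm v ϖ ρ x) (hg : Gen ρ x) (y : V) :
    ∃ (m : ℤ) (f : F →₀ ℂ), Mn ϖ ρ x y m f := by
  classical
  have hP : ∃ n : ℕ, ∃ (m : ℤ) (f : F →₀ ℂ), L ϖ ρ x m f = y ∧ f.support.card = n := by
    obtain ⟨m, f, hf⟩ := exists_rep hϖ h hg y
    exact ⟨_, m, f, hf, rfl⟩
  obtain ⟨m, f, hf, hn⟩ := Nat.find_spec hP
  refine ⟨m, f, hf, fun m' f' h' => ?_⟩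
  rw [hn]
  exact Nat.find_min' hP ⟨m', f', h', rfl⟩

/-- different elements of the support are in different balls -/
theorem Mn.sep (hϖ : v ϖ = exp (-1 : ℤ)) (h : Harm v ϖ ρ x) (hf : Mn ϖ ρ x y m f) {a a' : F}
    (ha : a ∈ f.support) (ha' : a' ∈ f.support) (hv : v (a - a') ≤ exp (-m)) : a = a' := by
  classical
  by_contra hne
  have h1 : vb ϖ ρ x a m = vb ϖ ρ x a' m := by
    have := p1 hϖ h a' (a - a') m hv
    rwa [add_sub_cancel] at this
  set f' : F →₀ ℂ := f + Finsupp.single a (f a') - Finsupp.single a' (f a') with hf'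
  have h2 : L ϖ ρ x m f' = y := by
    rw [hf', map_sub, map_add, L_single, L_single, h1, add_sub_cancel_right, hf.1]
  have h3 := hf.2 m f' h2
  have h4 : f'.support ⊆ f.support.erase a' := by
    intro b hb
    rw [Finsupp.mem_support_iff] at hb
    rw [Finset.mem_erase]
    constructor
    · rintro rfl
      apply hb
      rw [hf', Finsupp.sub_apply, Finsupp.add_apply, Finsupp.single_eq_same,
        Finsupp.single_eq_of_ne (Ne.symm hne)]
      ring
    · by_contra hb'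
      apply hb
      have e1 : f b = 0 := Finsupp.notMem_support_iff.1 hb'
      have e2 : b ≠ a := fun he => hb' (he ▸ ha)
      have e3 : b ≠ a' := fun he => hb' (he ▸ ha')
      rw [hf', Finsupp.sub_apply, Finsupp.add_apply, Finsupp.single_eq_of_ne e2,
        Finsupp.single_eq_of_ne e3, e1]
      ring
  have h5 := Finset.card_le_card h4
  rw [Finset.card_erase_of_mem ha'] at h5
  have h6 := Finset.card_pos.2 ⟨a', ha'⟩
  omega

end min

theorem v_p (hϖ : v ϖ = exp (-1 : ℤ)) (m : ℤ) : ¬ v ((ϖ ^ (m - 1) : Fˣ) : F) ≤ exp (-m) := by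
  rw [v_zpow hϖ, WithZero.exp_le_exp]
  omega

open scoped Classical in
/-- the coefficient of a ball -/
def Cf (v : Valuation F ℤᵐ⁰) (f : F →₀ ℂ) (m : ℤ) (b : F) : ℂ :=
  ∑ a ∈ f.support.filter (fun a => v (a - b) ≤ exp (-m)), f a

/-- a minimal representation is not constant on siblings -/
theorem not_const (hϖ : v ϖ = exp (-1 : ℤ)) (h : Harm v ϖ ρ x) {y : V} {m : ℤ}
    {f : F →₀ ℂ} (hf : Mn ϖ ρ x y m f) (hy : y ≠ 0) :
    ∃ a0 ∈ f.support, Cf v f m (a0 + ((ϖ ^ (m - 1) : Fˣ) : F)) ≠ f a0 := by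
  classical
  set p : F := ((ϖ ^ (m - 1) : Fˣ) : F) with hp
  by_contra hcon
  push Not at hcon
  have htri : ∀ a b c : F, v (a - b) ≤ exp (-m) → v (b - c) ≤ exp (-m) → v (a - c) ≤ exp (-m) := by
    intro a b c h1 h2
    have e : a - c = (a - b) + (b - c) := by ring
    rw [e]
    exact (Valuation.map_add _ _ _).trans (max_le h1 h2)
  have hex : ∀ a ∈ f.support, ∃ a' ∈ f.support, v (a' - (a + p)) ≤ exp (-m) ∧ f a' = f a := by
    intro a ha
    have h1 := hcon a ha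
    unfold Cf at h1
    have h2 : f a ≠ 0 := Finsupp.mem_support_iff.1 ha
    rw [← h1] at h2
    obtain ⟨a', ha', -⟩ := Finset.exists_ne_zero_of_sum_ne_zero h2
    rw [Finset.mem_filter] at ha'
    refine ⟨a', ha'.1, ha'.2, ?_⟩
    rw [← h1]
    refine (Finset.sum_eq_single_of_mem a' (Finset.mem_filter.2 ha') fun b hb hne => ?_).symm
    rw [Finset.mem_filter] at hb
    exfalso
    apply hne
    refine hf.sep hϖ h hb.1 ha'.1 (htri _ _ _ hb.2 ?_)
    rw [Valuation.map_sub_swap]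
    exact ha'.2
  choose! τ hτ1 hτ2 hτ3 using hex
  have hinj : Set.InjOn τ (f.support : Set F) := by
    intro a ha b hb hab
    refine hf.sep hϖ h ha hb ?_
    have h1 := hτ2 a ha
    have h2 := hτ2 b hb
    rw [← hab] at h2
    have e : a - b = (τ a - (b + p)) - (τ a - (a + p)) := by ring
    rw [e]
    exact (Valuation.map_sub _ _ _).trans (max_le h2 h1)
  have himg : f.support.image τ = f.support := by
    apply Finset.eq_of_subset_of_card_le
    · intro b hb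
      rw [Finset.mem_image] at hb
      obtain ⟨a, ha, rfl⟩ := hb
      exact hτ1 a ha
    · rw [Finset.card_image_of_injOn hinj]
  have hsum : ∑ a ∈ f.support, f a • vb ϖ ρ x (a + p) m = y := by
    rw [← hf.1, L_apply]
    conv_rhs => rw [← himg]
    rw [Finset.sum_image hinj]
    refine Finset.sum_congr rfl fun a ha => ?_
    rw [hτ3 a ha]
    congr 1
    have h5 := p1 hϖ h (a + p) (τ a - (a + p)) m (hτ2 a ha)
    rw [add_sub_cancel] at h5
    exact h5.symm
  have h6 : L ϖ ρ x (m - 1) f = (2 : ℂ) • y := by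
    rw [L_apply, two_smul]
    conv_rhs => rw [← hsum]
    nth_rw 2 [hsum]
    rw [← hf.1, L_apply, ← Finset.sum_add_distrib]
    refine Finset.sum_congr rfl fun a _ => ?_
    have h7 := p2 hϖ h a (m - 1)
    rw [sub_add_cancel] at h7
    rw [h7, smul_add, add_comm]
  have h8 : L ϖ ρ x (m - 1) ((1 / 2 : ℂ) • f) = y := by
    rw [map_smul, h6, smul_smul]
    norm_num
  have hsupp : ((1 / 2 : ℂ) • f).support = f.support :=
    Finsupp.support_smul_eq (by norm_num)
  have hMn : Mn ϖ ρ x y (m - 1) ((1 / 2 : ℂ) • f) := by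
    refine ⟨h8, fun m' f' h' => ?_⟩
    rw [hsupp]
    exact hf.2 m' f' h'
  have hne : f.support.Nonempty := by
    rw [Finset.nonempty_iff_ne_empty]
    intro h0
    apply hy
    rw [← hf.1, L_apply, h0, Finset.sum_empty]
  obtain ⟨a, ha⟩ := hne
  have h9 : a = τ a := by
    refine hMn.sep hϖ h (by rw [hsupp]; exact ha) (by rw [hsupp]; exact hτ1 a ha) ?_
    have e : a - τ a = -(τ a - (a + p)) - p := by ring
    rw [e]
    refine (Valuation.map_sub _ _ _).trans (max_le ?_ ?_)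
    · rw [Valuation.map_neg]
      refine (hτ2 a ha).trans ?_
      rw [WithZero.exp_le_exp]
      omega
    · rw [hp, v_zpow hϖ]
  have h10 := hτ2 a ha
  rw [← h9] at h10
  have e : a - (a + p) = -p := by ring
  rw [e, Valuation.map_neg] at h10
  exact v_p hϖ m h10

/-- the action of `om` on the vectors of the balls different from `0` and its sibling -/
theorem other (hϖ : v ϖ = exp (-1 : ℤ)) (hr : Res2 v) (h : Harm v ϖ ρ x) {m : ℤ} {b : F}
    (h1 : ¬ v b ≤ exp (-m)) (h2 : ¬ v (b - ((ϖ ^ (m - 1) : Fˣ) : F)) ≤ exp (-m)) :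
    ∃ n0 : ℕ, ∀ n : ℕ, n0 ≤ n → ∃ c : ℂ,
      Pop ϖ ρ (2 - m) n (ρ om (vb ϖ ρ x b m)) = c • vb ϖ ρ x 0 (2 - m) := by
  have hb : b ≠ 0 := by
    rintro rfl
    apply h1
    rw [map_zero]
    exact zero_le'
  obtain ⟨k, hk⟩ := exists_exp (v := v) hb
  have hkm : k < m := by
    rw [hk, WithZero.exp_le_exp] at h1
    omega
  have hkm2 : k ≤ m - 2 := by
    by_contra h3
    obtain rfl : k = m - 1 := by omega
    apply h2
    set u : F := b / ((ϖ ^ (m - 1) : Fˣ) : F) with hu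
    have hu1 : v u = 1 := by
      rw [hu, map_div₀, hk, v_zpow hϖ, div_self WithZero.exp_ne_zero]
    have hu2 := hr u hu1
    have e : b - ((ϖ ^ (m - 1) : Fˣ) : F) = (u - 1) * ((ϖ ^ (m - 1) : Fˣ) : F) := by
      rw [hu]
      have := Units.ne_zero (ϖ ^ (m - 1) : Fˣ)
      field_simp
    have hu3 : v (u - 1) ≤ exp (-(1 : ℤ)) := by
      have := (lt_exp_iff (z := v (u - 1)) (m := 0)).1 (by rw [neg_zero, WithZero.exp_zero]; exact hu2)
      simpa using this
    rw [e, map_mul, v_zpow hϖ]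
    calc v (u - 1) * exp (-(m - 1)) ≤ exp (-(1 : ℤ)) * exp (-(m - 1)) := mul_le_mul_left hu3 _
      _ = exp (-m) := by rw [← WithZero.exp_add]; congr 1; ring
  obtain ⟨j, hj⟩ : ∃ j : ℕ, m - 2 * k = (2 - m) + (j : ℤ) := ⟨(2 * m - 2 - 2 * k).toNat, by omega⟩
  refine ⟨j, fun n hn => ⟨(2 : ℂ) ^ (n - j), ?_⟩⟩
  rw [p4 hϖ h b m k hk hkm, hj, q1 hϖ h _ _ n j hn]
  congr 1
  have h5 := p1 hϖ h 0 b⁻¹ (2 - m) (by
    rw [map_inv₀, hk, ← WithZero.exp_neg, WithZero.exp_le_exp]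
    omega)
  rw [zero_add] at h5
  exact h5

/-- `Pop` preserves stable subspaces -/
theorem Pop_mem {N : Submodule ℂ V} (hN : ∀ g, ∀ y ∈ N, ρ g y ∈ N) (r : ℤ) (n : ℕ) :
    ∀ y ∈ N, Pop ϖ ρ r n y ∈ N := by
  induction n with
  | zero => exact fun y hy => hy
  | succ n ih =>
    intro y hy
    exact ih _ (add_mem hy (hN _ _ hy))

/-- a nonzero stable subspace contains `x` -/
theorem mem_of_stable (hϖ : v ϖ = exp (-1 : ℤ)) (hr : Res2 v) (h : Harm v ϖ ρ x) (hg : Gen ρ x)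
    {N : Submodule ℂ V} (hN : ∀ g, ∀ y ∈ N, ρ g y ∈ N) {y : V} (hy : y ∈ N) (hy0 : y ≠ 0) :
    x ∈ N := by
  classical
  obtain ⟨m, f, hf⟩ := exists_min hϖ h hg y
  obtain ⟨a0, ha0, hne⟩ := not_const hϖ h hf hy0
  set p : F := ((ϖ ^ (m - 1) : Fˣ) : F) with hp
  set X : V := vb ϖ ρ x 0 (2 - m) with hX
  set Y : V := vb ϖ ρ x ((ϖ ^ (1 - m) : Fˣ) : F) (2 - m) with hY
  set e : F → ℂ := fun a => if a = a0 then -1 else if v (a - (a0 + p)) ≤ exp (-m) then 1 else 0
    with he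
  have hpp : ((ϖ ^ (m - 1) : Fˣ) : F)⁻¹ = ((ϖ ^ (1 - m) : Fˣ) : F) := by
    rw [← Units.val_inv_eq_inv_val, ← zpow_neg]
    congr 2
    ring
  have hXY : vb ϖ ρ x 0 (1 - m) = X + Y := by
    have h1 := p2 hϖ h 0 (1 - m)
    rw [zero_add, show (1 - m + 1 : ℤ) = 2 - m by ring] at h1
    exact h1
  -- the terms
  have hterm : ∀ a : F, a ∈ f.support → ∃ n0 : ℕ, ∀ n : ℕ, n0 ≤ n → ∃ c : ℂ,
      Pop ϖ ρ (2 - m) n (ρ om (vb ϖ ρ x (-a0 + a) m)) = c • X + ((2 : ℂ) ^ n * e a) • Y := by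
    intro a ha
    have hP : ∀ (b : F) (n : ℕ), Pop ϖ ρ (2 - m) n (vb ϖ ρ x b (2 - m)) =
        (2 : ℂ) ^ n • vb ϖ ρ x b (2 - m) := by
      intro b n
      have := q1 hϖ h b (2 - m) n 0 (Nat.zero_le n)
      rwa [Nat.cast_zero, add_zero, Nat.sub_zero] at this
    by_cases h1 : a = a0
    · refine ⟨0, fun n _ => ⟨-(2 : ℂ) ^ n, ?_⟩⟩
      rw [h1, neg_add_cancel, p3 hϖ h, hXY, map_neg, map_add, hX, hY, hP, hP, he]
      simp only [if_true]
      rw [neg_add, mul_neg_one, neg_smul, neg_smul]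
    · by_cases h2 : v (a - (a0 + p)) ≤ exp (-m)
      · refine ⟨0, fun n _ => ⟨0, ?_⟩⟩
        have h3 : vb ϖ ρ x (-a0 + a) m = vb ϖ ρ x p m := by
          have h4 := p1 hϖ h p (a - (a0 + p)) m h2
          rw [← h4]
          congr 1
          ring
        rw [h3, p4 hϖ h p m (m - 1) (v_zpow hϖ _) (by omega), hpp,
          show m - 2 * (m - 1) = 2 - m by ring, hP, he]
        simp only [if_neg h1, if_pos h2]
        rw [zero_smul, zero_add, mul_one]
      · obtain ⟨n0, hn0⟩ := other hϖ hr h (m := m) (b := -a0 + a) (fun h3 => h1 (hf.sep hϖ h ha ha0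
          (by rwa [neg_add_eq_sub] at h3))) (fun h3 => h2 (by
            have e3 : a - (a0 + p) = -a0 + a - p := by ring
            rw [e3]
            exact h3))
        refine ⟨n0, fun n hn => ?_⟩
        obtain ⟨c, hc⟩ := hn0 n hn
        refine ⟨c, ?_⟩
        rw [hc, he]
        simp only [if_neg h1, if_neg h2]
        rw [mul_zero, zero_smul, add_zero]
  choose! n0 hn0 using hterm
  set n : ℕ := f.support.sup n0 with hn
  have hn' : ∀ a : F, a ∈ f.support → n0 a ≤ n := fun a ha => Finset.le_sup ha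
  have hc : ∀ a : F, a ∈ f.support → ∃ c : ℂ,
      Pop ϖ ρ (2 - m) n (ρ om (vb ϖ ρ x (-a0 + a) m)) = c • X + ((2 : ℂ) ^ n * e a) • Y :=
    fun a ha => hn0 a ha n (hn' a ha)
  choose! c hc using hc
  have hz : Pop ϖ ρ (2 - m) n (ρ om (ρ (nU (-a0)) y)) = (∑ a ∈ f.support, f a * c a) • X +
      ((2 : ℂ) ^ n * (Cf v f m (a0 + p) - f a0)) • Y := by
    have h1 : ∑ a ∈ f.support, f a * e a = Cf v f m (a0 + p) - f a0 := by
      have h2 : ∀ a ∈ f.support, f a * e a = (if v (a - (a0 + p)) ≤ exp (-m) then f a else 0) -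
          (if a = a0 then f a else 0) := by
        intro a _
        rw [he]
        by_cases h3 : a = a0
        · have h4 : ¬ v (a - (a0 + p)) ≤ exp (-m) := by
            rw [h3]
            have e3 : a0 - (a0 + p) = -p := by ring
            rw [e3, Valuation.map_neg]
            exact v_p hϖ m
          simp only [if_pos h3, if_neg h4]
          ring
        · simp only [if_neg h3]
          split_ifs <;> ring
      rw [Finset.sum_congr rfl h2, Finset.sum_sub_distrib, Finset.sum_ite_eq', if_pos ha0,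
        ← Finset.sum_filter]
      rfl
    conv_lhs => rw [← hf.1, L_apply]
    rw [map_sum, map_sum, map_sum]
    have h3 : ∀ a ∈ f.support, Pop ϖ ρ (2 - m) n (ρ om (ρ (nU (-a0)) (f a • vb ϖ ρ x a m))) =
        (f a * c a) • X + (2 ^ n * (f a * e a)) • Y := by
      intro a ha
      rw [map_smul, map_smul, map_smul, nU_vb, hc a ha, smul_add, smul_smul, smul_smul]
      congr 2
      ring
    rw [Finset.sum_congr rfl h3, Finset.sum_add_distrib, ← Finset.sum_smul, ← Finset.sum_smul,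
      ← Finset.mul_sum, h1]
  set α : ℂ := ∑ a ∈ f.support, f a * c a with hα
  set β : ℂ := (2 : ℂ) ^ n * (Cf v f m (a0 + p) - f a0) with hβ
  have hβ0 : β ≠ 0 := mul_ne_zero (pow_ne_zero _ two_ne_zero) (sub_ne_zero.2 hne)
  have m1 : α • X + β • Y ∈ N := by
    rw [← hz]
    exact Pop_mem hN _ _ _ (hN _ _ (hN _ _ hy))
  -- the swap
  have s1 : ρ (nU ((ϖ ^ (1 - m) : Fˣ) : F)) X = Y := by
    rw [hX, nU_vb, add_zero]
  have s2 : ρ (nU ((ϖ ^ (1 - m) : Fˣ) : F)) Y = X := by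
    rw [hY, nU_vb, hX]
    have h1 := p1 hϖ h 0 (((ϖ ^ (1 - m) : Fˣ) : F) + ((ϖ ^ (1 - m) : Fˣ) : F)) (2 - m) (by
      rw [← two_mul, map_mul, v_zpow hϖ]
      have h2 : v (2 : F) ≤ exp (-(1 : ℤ)) := by
        have := (lt_exp_iff (z := v (2 : F)) (m := 0)).1 (by
          rw [neg_zero, WithZero.exp_zero]; exact v_two hr)
        simpa using this
      calc v (2 : F) * exp (-(1 - m)) ≤ exp (-(1 : ℤ)) * exp (-(1 - m)) := mul_le_mul_left h2 _
        _ = exp (-(2 - m)) := by rw [← WithZero.exp_add]; congr 1; ring)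
    rw [zero_add] at h1
    exact h1
  have m2 : α • Y + β • X ∈ N := by
    have h1 := hN (nU ((ϖ ^ (1 - m) : Fˣ) : F)) _ m1
    rwa [map_add, map_smul, map_smul, s1, s2] at h1
  -- back to level one
  have b1 : ρ (bor (ϖ ^ (m - 1)) 0 1) X = vb ϖ ρ x 0 1 := by
    rw [hX, p5 hϖ h (ϖ ^ (m - 1)) 1 0 0 (2 - m) (m - 1) (by rw [div_one]; exact v_zpow hϖ _)]
    congr 1
    · simp
    · ring
  have b2 : ρ (bor (ϖ ^ (m - 1)) 0 1) Y = vb ϖ ρ x 1 1 := by
    rw [hY, p5 hϖ h (ϖ ^ (m - 1)) 1 0 _ (2 - m) (m - 1) (by rw [div_one]; exact v_zpow hϖ _)]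
    congr 1
    · rw [add_zero, Units.val_one, div_one, ← Units.val_mul, ← zpow_add]
      simp
    · ring
  have b3 : x = vb ϖ ρ x 0 1 + vb ϖ ρ x 1 1 := by
    have h1 := p2 hϖ h 0 0
    rw [vb_one hϖ h, zero_add, zero_add, zpow_zero, Units.val_one] at h1
    exact h1
  have m3 : (α + β) • (vb ϖ ρ x 0 1 + vb ϖ ρ x 1 1) ∈ N := by
    have h1 := hN (bor (ϖ ^ (m - 1)) 0 1) _ (add_mem m1 m2)
    rw [map_add, map_add, map_add, map_smul, map_smul, map_smul, map_smul, b1, b2] at h1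
    have e1 : (α + β) • (vb ϖ ρ x 0 1 + vb ϖ ρ x 1 1) = α • vb ϖ ρ x 0 1 + β • vb ϖ ρ x 1 1 +
        (α • vb ϖ ρ x 1 1 + β • vb ϖ ρ x 0 1) := by
      module
    rw [e1]
    exact h1
  by_cases hab : α + β = 0
  · have m4 : (α - β) • (vb ϖ ρ x 0 1 - vb ϖ ρ x 1 1) ∈ N := by
      have h1 := hN (bor (ϖ ^ (m - 1)) 0 1) _ (sub_mem m1 m2)
      rw [map_sub, map_add, map_add, map_smul, map_smul, map_smul, map_smul, b1, b2] at h1
      have e1 : (α - β) • (vb ϖ ρ x 0 1 - vb ϖ ρ x 1 1) = α • vb ϖ ρ x 0 1 + β • vb ϖ ρ x 1 1 -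
          (α • vb ϖ ρ x 1 1 + β • vb ϖ ρ x 0 1) := by
        module
      rw [e1]
      exact h1
    have hαβ : α - β ≠ 0 := by
      intro h1
      apply hβ0
      linear_combination (1 / 2 : ℂ) * hab - (1 / 2 : ℂ) * h1
    have m5 : vb ϖ ρ x 0 1 - vb ϖ ρ x 1 1 ∈ N := (Submodule.smul_mem_iff _ hαβ).1 m4
    have m6 := hN om _ m5
    have h0 := p3 hϖ h 1
    rw [sub_self, vb_one hϖ h] at h0
    have h1 : ρ om (vb ϖ ρ x 1 1) = vb ϖ ρ x 1 1 := by
      have := p4 hϖ h 1 1 0 (by rw [map_one, neg_zero, WithZero.exp_zero]) (by norm_num)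
      rwa [inv_one, mul_zero, sub_zero] at this
    rw [map_sub, h0, h1] at m6
    have m7 : vb ϖ ρ x 1 1 ∈ N := by
      have h2 := add_mem m5 m6
      have e2 : vb ϖ ρ x 0 1 - vb ϖ ρ x 1 1 + (-x - vb ϖ ρ x 1 1) = (-3 : ℂ) • vb ϖ ρ x 1 1 := by
        have e3 : ∀ P Q Z : V, Z = P + Q → P - Q + (-Z - Q) = (-3 : ℂ) • Q := by
          intro P Q Z hZ
          rw [hZ]
          module
        exact e3 _ _ _ b3
      rw [e2] at h2
      exact (Submodule.smul_mem_iff _ (by norm_num)).1 h2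
    rw [b3]
    have h3 : vb ϖ ρ x 0 1 = (vb ϖ ρ x 0 1 - vb ϖ ρ x 1 1) + vb ϖ ρ x 1 1 := by abel
    exact add_mem (by rw [h3]; exact add_mem m5 m7) m7
  · have m4 := (Submodule.smul_mem_iff _ hab).1 m3
    rw [b3]
    exact m4

end LBx

theorem t_LB : S_LA → S_LP → S_LB := by
  intro _ _ F _ v ϖ hϖ hr V _ _ ρ x h hx hg
  haveI : Nontrivial (Subrepresentation ρ) := by
    refine ⟨⟨⊥, ⊤, fun h1 => ?_⟩⟩
    have h2 : x ∈ (⊤ : Subrepresentation ρ) := Submodule.mem_top (R := ℂ)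
    rw [← h1] at h2
    exact hx ((Submodule.mem_bot ℂ).1 h2)
  refine ⟨fun W => ?_⟩
  rcases eq_or_ne W.toSubmodule ⊥ with h1 | h1
  · exact Or.inl (Subrepresentation.toSubmodule_injective h1)
  · right
    apply Subrepresentation.toSubmodule_injective
    obtain ⟨y, hy, hy0⟩ := Submodule.exists_mem_ne_zero_of_ne_bot h1
    have hN : ∀ g, ∀ y ∈ W.toSubmodule, ρ g y ∈ W.toSubmodule := fun g y hy =>
      W.apply_mem_toSubmodule g hy
    have h2 := LBx.mem_of_stable hϖ hr h hg hN hy hy0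
    have h3 : (⊤ : Submodule ℂ V) ≤ W.toSubmodule := by
      rw [← (show Submodule.span ℂ (Set.range fun g => ρ g x) = ⊤ from hg), Submodule.span_le]
      rintro _ ⟨g, rfl⟩
      exact hN g x h2
    exact top_le_iff.1 h3

end Pool.Agent.T2h66.LL
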