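import Pool.Agent.T2h66.LL.Stm

/-!
# LA: formulas for the vectors of balls
-/

set_option autoImplicit false
set_option linter.all false

noncomputable section

open IsDedekindDomain WithZero

namespace Pool.Agent.T2h66.LL

namespace LAx

variable {F : Type} [Field F]

theorem gl_ext {g h : GL (Fin 2) F} (h00 : g 0 0 = h 0 0) (h01 : g 0 1 = h 0 1)
    (h10 : g 1 0 = h 1 0) (h11 : g 1 1 = h 1 1) : g = h := by
  apply Units.ext
  ext i j
  fin_cases i <;> fin_cases j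
  · exact h00
  · exact h01
  · exact h10
  · exact h11

theorem mul_ap (g h : GL (Fin 2) F) (i j : Fin 2) :
    (g * h) i j = g i 0 * h 0 j + g i 1 * h 1 j := by
  rw [Units.val_mul, Matrix.mul_apply, Fin.sum_univ_two]

theorem nU00 (a : F) : (nU a) 0 0 = 1 := rfl
theorem nU01 (a : F) : (nU a) 0 1 = a := rfl
theorem nU10 (a : F) : (nU a) 1 0 = 0 := rfl
theorem nU11 (a : F) : (nU a) 1 1 = 1 := rfl
theorem bor00 (a d : Fˣ) (b : F) : (bor a b d) 0 0 = a := rfl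
theorem bor01 (a d : Fˣ) (b : F) : (bor a b d) 0 1 = b := rfl
theorem bor10 (a d : Fˣ) (b : F) : (bor a b d) 1 0 = 0 := rfl
theorem bor11 (a d : Fˣ) (b : F) : (bor a b d) 1 1 = d := rfl
theorem om00 : (om : GL (Fin 2) F) 0 0 = 0 := rfl
theorem om01 : (om : GL (Fin 2) F) 0 1 = 1 := rfl
theorem om10 : (om : GL (Fin 2) F) 1 0 = 1 := rfl
theorem om11 : (om : GL (Fin 2) F) 1 1 = 0 := rfl
theorem da00 (a : Fˣ) : (da a : GL (Fin 2) F) 0 0 = a := rfl
theorem da01 (a : Fˣ) : (da a : GL (Fin 2) F) 0 1 = 0 := rfl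
theorem da10 (a : Fˣ) : (da a : GL (Fin 2) F) 1 0 = 0 := rfl
theorem da11 (a : Fˣ) : (da a : GL (Fin 2) F) 1 1 = 1 := rfl
theorem sc00 (a : Fˣ) : (sc a : GL (Fin 2) F) 0 0 = a := rfl
theorem sc01 (a : Fˣ) : (sc a : GL (Fin 2) F) 0 1 = 0 := rfl
theorem sc10 (a : Fˣ) : (sc a : GL (Fin 2) F) 1 0 = 0 := rfl
theorem sc11 (a : Fˣ) : (sc a : GL (Fin 2) F) 1 1 = a := rfl

/-- the lower triangular unipotent matrix -/
def lo (c : F) : GL (Fin 2) F where
  val := !![1, 0; c, 1]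
  inv := !![1, 0; -c, 1]
  val_inv := by ext i j; fin_cases i <;> fin_cases j <;> simp [Matrix.mul_apply, Fin.sum_univ_two]
  inv_val := by ext i j; fin_cases i <;> fin_cases j <;> simp [Matrix.mul_apply, Fin.sum_univ_two]

theorem lo00 (a : F) : (lo a) 0 0 = 1 := rfl
theorem lo01 (a : F) : (lo a) 0 1 = 0 := rfl
theorem lo10 (a : F) : (lo a) 1 0 = a := rfl
theorem lo11 (a : F) : (lo a) 1 1 = 1 := rfl

/-- proofs of identities between matrices -/
theorem om_om : (om : GL (Fin 2) F) * om = 1 := by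
  apply gl_ext <;> simp [mul_ap, om00, om01, om10, om11]

theorem om_nU_om (b : F) : om * nU b * om = lo b := by
  apply gl_ext <;>
    simp [mul_ap, om00, om01, om10, om11, nU00, nU01, nU10, nU11, lo00, lo01, lo10, lo11]

theorem nU_add (a b : F) : nU (a + b) = nU a * nU b := by
  apply gl_ext <;> simp [mul_ap, nU00, nU01, nU10, nU11]
  ring

theorem nU_zero : nU (0 : F) = 1 := by
  apply gl_ext <;> simp [nU00, nU01, nU10, nU11]

theorem da_mul (a b : Fˣ) : (da (a * b) : GL (Fin 2) F) = da a * da b := by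
  apply gl_ext <;> simp [mul_ap, da00, da01, da10, da11]

theorem da_nU (a : Fˣ) (b : F) : da a * nU b = nU ((a : F) * b) * da a := by
  apply gl_ext <;> simp [mul_ap, nU00, nU01, nU10, nU11, da00, da01, da10, da11]

theorem sc_comm (z : Fˣ) (g : GL (Fin 2) F) : sc z * g = g * sc z := by
  apply gl_ext <;> simp [mul_ap, sc00, sc01, sc10, sc11] <;> ring

theorem om_da (a : Fˣ) : (om : GL (Fin 2) F) * da a = sc a * da a⁻¹ * om := by
  apply gl_ext <;> simp [mul_ap, om00, om01, om10, om11, da00, da01, da10, da11, sc00, sc01, sc10,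
    sc11]

/-- (4) -/
theorem om_nU_da (a p : Fˣ) :
    (om : GL (Fin 2) F) * nU (a : F) * da p * lo (-((p : F) / a)) =
      sc a * nU ((a : F)⁻¹) * da (-(p / a ^ 2)) := by
  have ha : (a : F) ≠ 0 := a.ne_zero
  apply gl_ext <;> simp [mul_ap, om00, om01, om10, om11, nU00, nU01, nU10, nU11, da00, da01, da10,
    da11, sc00, sc01, sc10, sc11, lo00, lo01, lo10, lo11] <;> field_simp
  ring

/-- (5) -/
theorem bor_nU_da (α δ p : Fˣ) (β a : F) :
    bor α β δ * (nU a * da p) = sc δ * nU (((α : F) * a + β) / δ) * da (α * p / δ) := by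
  have hd : (δ : F) ≠ 0 := δ.ne_zero
  apply gl_ext <;> simp [mul_ap, nU00, nU01, nU10, nU11, da00, da01, da10,
    da11, sc00, sc01, sc10, sc11, bor00, bor01, bor10, bor11] <;> field_simp

/-- (LP2) -/
theorem lo_nU_da (a b : F) (p u : Fˣ) (hu : (u : F) = 1 + a * b) :
    lo b * (nU a * da p) * lo (-(b * p / u)) = sc u * nU (a / u) * da (p / u ^ 2) := by
  have h0 : (u : F) ≠ 0 := u.ne_zero
  apply gl_ext <;> simp [mul_ap, nU00, nU01, nU10, nU11, da00, da01, da10,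
    da11, sc00, sc01, sc10, sc11, lo00, lo01, lo10, lo11] <;> field_simp
  · rw [hu]; ring
  · rw [hu]; ring
  · rw [hu]; ring

section mem
variable {v : Valuation F ℤᵐ⁰}

theorem mem_Iw {g : GL (Fin 2) F} (h : ∀ i j, v (g i j) ≤ 1)
    (h' : ∀ i j, v ((g⁻¹ : GL (Fin 2) F) i j) ≤ 1) (h1 : v (g 1 0) < 1) : g ∈ Iw v :=
  ⟨fun i j => ⟨h i j, h' i j⟩, h1⟩

theorem all4 {P : Fin 2 → Fin 2 → Prop} (h00 : P 0 0) (h01 : P 0 1) (h10 : P 1 0) (h11 : P 1 1) :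
    ∀ i j, P i j := by
  intro i j
  fin_cases i <;> fin_cases j
  · exact h00
  · exact h01
  · exact h10
  · exact h11

theorem nU_mem {b : F} (hb : v b ≤ 1) : nU b ∈ Iw v := by
  refine mem_Iw (all4 ?_ ?_ ?_ ?_) (all4 ?_ ?_ ?_ ?_) ?_
  · rw [nU00, map_one]
  · rw [nU01]; exact hb
  · rw [nU10, map_zero]; exact zero_le_one
  · rw [nU11, map_one]
  · exact (map_one v).le
  · show v (-b) ≤ 1
    rw [Valuation.map_neg]; exact hb
  · exact (map_zero v).le.trans zero_le_one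
  · exact (map_one v).le
  · rw [nU10, map_zero]; exact zero_lt_one

theorem lo_mem {b : F} (hb : v b < 1) : lo b ∈ Iw v := by
  refine mem_Iw (all4 ?_ ?_ ?_ ?_) (all4 ?_ ?_ ?_ ?_) ?_
  · rw [lo00, map_one]
  · rw [lo01, map_zero]; exact zero_le_one
  · rw [lo10]; exact hb.le
  · rw [lo11, map_one]
  · exact (map_one v).le
  · exact (map_zero v).le.trans zero_le_one
  · show v (-b) ≤ 1
    rw [Valuation.map_neg]; exact hb.le
  · exact (map_one v).le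
  · rw [lo10]; exact hb

theorem da_mem {u : Fˣ} (hu : v (u : F) = 1) : (da u : GL (Fin 2) F) ∈ Iw v := by
  refine mem_Iw (all4 ?_ ?_ ?_ ?_) (all4 ?_ ?_ ?_ ?_) ?_
  · rw [da00, hu]
  · rw [da01, map_zero]; exact zero_le_one
  · rw [da10, map_zero]; exact zero_le_one
  · rw [da11, map_one]
  · show v ((u⁻¹ : Fˣ) : F) ≤ 1
    rw [Units.val_inv_eq_inv_val, map_inv₀, hu, inv_one]
  · show v (-((u⁻¹ : Fˣ) : F) * 0 * ((1⁻¹ : Fˣ) : F)) ≤ 1
    rw [mul_zero, zero_mul, map_zero]; exact zero_le_one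
  · exact (map_zero v).le.trans zero_le_one
  · show v ((1⁻¹ : Fˣ) : F) ≤ 1
    rw [inv_one, Units.val_one, map_one]
  · rw [da10, map_zero]; exact zero_lt_one

end mem

section vb
variable {v : Valuation F ℤᵐ⁰} {ϖ : Fˣ} {V : Type} [AddCommGroup V] [Module ℂ V]
  {ρ : Representation ℂ (GL (Fin 2) F) V} {x : V}

theorem v_zpow (hϖ : v ϖ = exp (-1 : ℤ)) (m : ℤ) : v ((ϖ ^ m : Fˣ) : F) = exp (-m) := by
  rw [Units.val_zpow_eq_zpow_val, map_zpow₀, hϖ, ← WithZero.exp_zsmul]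
  congr 1
  simp

theorem exists_exp {z : F} (hz : z ≠ 0) : ∃ k : ℤ, v z = exp (-k) :=
  ⟨-WithZero.log (v z), by rw [neg_neg, WithZero.exp_log ((Valuation.ne_zero_iff _).2 hz)]⟩

theorem rmul (g h : GL (Fin 2) F) (y : V) : ρ (g * h) y = ρ g (ρ h y) := by
  rw [map_mul]; rfl

/-- elements differing by the Iwahori group and the centre -/
theorem eq_of (h : Harm v ϖ ρ x) {g g' κ : GL (Fin 2) F} {z : Fˣ} (hκ : κ ∈ Iw v)
    (he : g * κ = sc z * g') : ρ g x = ρ g' x := by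
  rw [← h.iw κ hκ, ← rmul, he, sc_comm, rmul, h.sc, h.iw κ hκ]

/-- the matrices `(α, β; 0, 1)` -/
theorem da_unit (hϖ : v ϖ = exp (-1 : ℤ)) (h : Harm v ϖ ρ x) (g : GL (Fin 2) F) {p : Fˣ} {m : ℤ}
    (hp : v (p : F) = exp (-m)) : ρ (g * da p) x = ρ (g * da (ϖ ^ m)) x := by
  have h1 : p = ϖ ^ m * (p / ϖ ^ m) := by rw [mul_div_cancel]
  have h2 : v (((p / ϖ ^ m : Fˣ)) : F) = 1 := by
    rw [Units.val_div_eq_div_val, map_div₀, hp, v_zpow hϖ, div_self WithZero.exp_ne_zero]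
  rw [h1, da_mul, ← mul_assoc, rmul, h.iw _ (da_mem h2)]

theorem vb_one (hϖ : v ϖ = exp (-1 : ℤ)) (h : Harm v ϖ ρ x) : vb ϖ ρ x 0 0 = x := by
  unfold vb
  have : (nU (0 : F)) * da (ϖ ^ (0 : ℤ)) = 1 := by
    rw [nU_zero, one_mul, zpow_zero]
    apply gl_ext <;> simp [da00, da01, da10, da11]
  rw [this, map_one]
  rfl

theorem nU_vb (a b : F) (m : ℤ) : ρ (nU b) (vb ϖ ρ x a m) = vb ϖ ρ x (b + a) m := by
  unfold vb
  rw [← rmul, ← mul_assoc, ← nU_add]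

theorem p1 (hϖ : v ϖ = exp (-1 : ℤ)) (h : Harm v ϖ ρ x) (a b : F) (m : ℤ) (hb : v b ≤ exp (-m)) :
    vb ϖ ρ x (a + b) m = vb ϖ ρ x a m := by
  unfold vb
  have h1 : nU (a + b) * da (ϖ ^ m) = nU a * da (ϖ ^ m) * nU (b / ((ϖ ^ m : Fˣ) : F)) := by
    rw [mul_assoc, da_nU, mul_div_cancel₀ _ (Units.ne_zero _), nU_add, mul_assoc]
  rw [h1, rmul, h.iw]
  apply nU_mem
  rw [map_div₀, v_zpow hϖ]
  exact div_le_one_of_le₀ hb zero_le'

theorem da_x (h : Harm v ϖ ρ x) : ρ (da ϖ) x = -ρ om x := by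
  have h1 := congrArg (ρ om) h.al
  rw [← rmul, ← mul_assoc, om_om, one_mul, map_neg] at h1
  exact h1

theorem p2 (hϖ : v ϖ = exp (-1 : ℤ)) (h : Harm v ϖ ρ x) (a : F) (m : ℤ) :
    vb ϖ ρ x a m = vb ϖ ρ x a (m + 1) + vb ϖ ρ x (a + ((ϖ ^ m : Fˣ) : F)) (m + 1) := by
  have h1 : x = ρ (da ϖ) x + ρ (nU 1 * da ϖ) x := by
    have h2 := h.sum
    rw [rmul, da_x h, map_neg]
    rw [rmul] at h2
    have h3 : x = -(ρ om x) - ρ (nU 1) (ρ om x) := by
      rw [← sub_eq_zero, ← h2]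
      abel
    rw [← sub_eq_add_neg]
    exact h3
  unfold vb
  conv_lhs => rw [h1]
  rw [map_add, ← rmul, ← rmul]
  have e1 : nU a * da (ϖ ^ m) * da ϖ = nU a * da (ϖ ^ (m + 1)) := by
    rw [mul_assoc, ← da_mul, zpow_add_one]
  have e2 : nU a * da (ϖ ^ m) * (nU 1 * da ϖ) =
      nU (a + ((ϖ ^ m : Fˣ) : F)) * da (ϖ ^ (m + 1)) := by
    rw [zpow_add_one, da_mul, nU_add, ← mul_assoc, mul_assoc (nU a), da_nU, mul_one]
    simp only [mul_assoc]
  rw [e1, e2]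

theorem p3 (hϖ : v ϖ = exp (-1 : ℤ)) (h : Harm v ϖ ρ x) (m : ℤ) :
    ρ om (vb ϖ ρ x 0 m) = -vb ϖ ρ x 0 (1 - m) := by
  unfold vb
  rw [nU_zero, one_mul, one_mul, ← rmul, om_da, mul_assoc, sc_comm, rmul, h.sc, rmul]
  have h1 := da_x h
  have h2 : ρ om x = -ρ (da ϖ) x := by rw [h1, neg_neg]
  rw [h2, map_neg, ← rmul, ← da_mul]
  congr 4
  rw [← zpow_neg, ← zpow_add_one]
  congr 1
  ring

theorem p4 (hϖ : v ϖ = exp (-1 : ℤ)) (h : Harm v ϖ ρ x) (a : F) (m k : ℤ) (ha : v a = exp (-k))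
    (hk : k < m) : ρ om (vb ϖ ρ x a m) = vb ϖ ρ x a⁻¹ (m - 2 * k) := by
  have ha0 : a ≠ 0 := by
    rintro rfl
    rw [map_zero] at ha
    exact WithZero.exp_ne_zero ha.symm
  set u : Fˣ := Units.mk0 a ha0 with hu
  have hua : (u : F) = a := rfl
  unfold vb
  rw [← rmul, ← mul_assoc]
  have h1 := om_nU_da u (ϖ ^ m)
  rw [hua, mul_assoc (sc u)] at h1
  rw [eq_of h (lo_mem ?_) h1]
  · refine da_unit hϖ h _ ?_
    rw [Units.val_neg, Valuation.map_neg, Units.val_div_eq_div_val, Units.val_pow_eq_pow_val,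
      map_div₀, map_pow, v_zpow hϖ, hua, ha, ← WithZero.exp_nsmul, ← WithZero.exp_sub]
    congr 1
    simp
    ring
  · rw [Valuation.map_neg, map_div₀, v_zpow hϖ, ha, ← WithZero.exp_sub, ← WithZero.exp_zero,
      WithZero.exp_lt_exp]
    omega

theorem p5 (hϖ : v ϖ = exp (-1 : ℤ)) (h : Harm v ϖ ρ x) (α δ : Fˣ) (β a : F) (m j : ℤ)
    (hj : v ((α / δ : Fˣ) : F) = exp (-j)) :
    ρ (bor α β δ) (vb ϖ ρ x a m) = vb ϖ ρ x ((α * a + β) / δ) (m + j) := by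
  unfold vb
  rw [← rmul, bor_nU_da, mul_assoc (sc δ), sc_comm, rmul, h.sc]
  refine da_unit hϖ h _ ?_
  rw [Units.val_div_eq_div_val, Units.val_mul] at *
  rw [map_div₀] at hj
  rw [map_div₀, map_mul, v_zpow hϖ, mul_div_right_comm, hj, ← WithZero.exp_add]
  congr 1
  ring

theorem p6 (hϖ : v ϖ = exp (-1 : ℤ)) (h : Harm v ϖ ρ x) (g : GL (Fin 2) F) :
    ∃ s : ℂ, (s = 1 ∨ s = -1) ∧ ∃ (a : F) (m : ℤ), ρ g x = s • vb ϖ ρ x a m := by
  have hdet : g 0 0 * g 1 1 - g 0 1 * g 1 0 ≠ 0 := by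
    have h1 := Matrix.det_fin_two (g : Matrix (Fin 2) (Fin 2) F)
    rw [← h1]
    exact (Matrix.isUnits_det_units g).ne_zero
  by_cases hc : g 1 0 = 0
  · rw [hc, mul_zero, sub_zero] at hdet
    have ha0 := left_ne_zero_of_mul hdet
    have hd0 := right_ne_zero_of_mul hdet
    set α : Fˣ := Units.mk0 _ ha0
    set δ : Fˣ := Units.mk0 _ hd0
    have hg : g = bor α (g 0 1) δ := gl_ext rfl rfl hc rfl
    obtain ⟨j, hj⟩ := exists_exp (v := v) (Units.ne_zero (α / δ))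
    refine ⟨1, Or.inl rfl, (α * 0 + g 0 1) / δ, 0 + j, ?_⟩
    rw [one_smul, ← p5 hϖ h α δ (g 0 1) 0 0 j hj, vb_one hϖ h, ← hg]
  · have he : g 0 1 - g 0 0 * g 1 1 / g 1 0 ≠ 0 := by
      intro h0
      apply hdet
      field_simp at h0
      linear_combination -h0
    set γ : Fˣ := Units.mk0 _ hc
    set ε : Fˣ := Units.mk0 _ he
    have hγ : (γ : F) = g 1 0 := rfl
    have hε : (ε : F) = g 0 1 - g 0 0 * g 1 1 / g 1 0 := rfl
    have hg : g = nU (g 0 0 / g 1 0) * (om * bor γ (g 1 1) ε) := by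
      apply gl_ext <;> simp [mul_ap, nU00, nU01, nU10, nU11, bor00, bor01, bor10, bor11, om00,
        om01, om10, om11, hγ, hε] <;> field_simp
      ring
    obtain ⟨j, hj⟩ := exists_exp (v := v) (Units.ne_zero (γ / ε))
    have h2 : ρ (bor γ (g 1 1) ε) x = vb ϖ ρ x (g 1 1 / ε) j := by
      have := p5 hϖ h γ ε (g 1 1) 0 0 j hj
      rw [vb_one hϖ h, mul_zero, zero_add, zero_add] at this
      exact this
    have h3 : ∃ s : ℂ, (s = 1 ∨ s = -1) ∧ ∃ (a : F) (m : ℤ),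
        ρ om (vb ϖ ρ x (g 1 1 / ε) j) = s • vb ϖ ρ x a m := by
      rcases le_or_gt (v (g 1 1 / ε)) (exp (-j)) with h4 | h4
      · refine ⟨-1, Or.inr rfl, 0, 1 - j, ?_⟩
        have h5 := p1 hϖ h 0 (g 1 1 / ε) j h4
        rw [zero_add] at h5
        rw [h5, p3 hϖ h, neg_one_smul]
      · have h6 : g 1 1 / (ε : F) ≠ 0 := by
          intro h0
          rw [h0, map_zero] at h4
          exact absurd h4 not_lt_zero'
        obtain ⟨k, hk⟩ := exists_exp (v := v) h6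
        refine ⟨1, Or.inl rfl, (g 1 1 / (ε : F))⁻¹, j - 2 * k, ?_⟩
        rw [one_smul]
        refine p4 hϖ h _ _ _ hk ?_
        rw [hk, WithZero.exp_lt_exp] at h4
        omega
    obtain ⟨s, hs, a, m, h7⟩ := h3
    refine ⟨s, hs, g 0 0 / g 1 0 + a, m, ?_⟩
    conv_lhs => rw [hg]
    rw [rmul, rmul, h2, h7, map_smul, nU_vb]

end vb

end LAx

theorem t_LA : S_LA := by
  intro F _ v ϖ hϖ _ V _ _ ρ x h
  exact ⟨LAx.p1 hϖ h, LAx.p2 hϖ h, LAx.p3 hϖ h, LAx.p4 hϖ h, LAx.p5 hϖ h, LAx.p6 hϖ h⟩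

end Pool.Agent.T2h66.LL
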