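import Pool.Agent.T2h69.LL.LA

/-!
# LP: averages over unipotent groups
-/

set_option autoImplicit false
set_option linter.all false

noncomputable section

open IsDedekindDomain WithZero

namespace Pool.Agent.T2h66.LL

namespace LPx

open LAx

variable {F : Type} [Field F] {v : Valuation F ℤᵐ⁰} {ϖ : Fˣ} {V : Type} [AddCommGroup V]
  [Module ℂ V] {ρ : Representation ℂ (GL (Fin 2) F) V} {x : V}

theorem q1 (hϖ : v ϖ = exp (-1 : ℤ)) (h : Harm v ϖ ρ x) (a : F) (r : ℤ) (n : ℕ) : ∀ j : ℕ, j ≤ n →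
    Pop ϖ ρ r n (vb ϖ ρ x a (r + (j : ℤ))) = (2 : ℂ) ^ (n - j) • vb ϖ ρ x a r := by
  induction n with
  | zero =>
    intro j hj
    obtain rfl : j = 0 := by omega
    show vb ϖ ρ x a (r + ((0 : ℕ) : ℤ)) = _
    simp
  | succ n ih =>
    intro j hj
    have e : Pop ϖ ρ r (n + 1) (vb ϖ ρ x a (r + (j : ℤ))) =
        Pop ϖ ρ r n (vb ϖ ρ x a (r + (j : ℤ)) +
          ρ (nU ((ϖ ^ (r + (n : ℤ)) : Fˣ) : F)) (vb ϖ ρ x a (r + (j : ℤ)))) := rfl
    rw [e, nU_vb, add_comm _ a]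
    rcases Nat.lt_or_ge n j with h1 | h1
    · obtain rfl : j = n + 1 := by omega
      have h2 := p2 hϖ h a (r + (n : ℤ))
      have e1 : r + ((n + 1 : ℕ) : ℤ) = r + (n : ℤ) + 1 := by push_cast; ring
      rw [e1, ← h2, ih n le_rfl]
      simp
    · have h2 : vb ϖ ρ x (a + ((ϖ ^ (r + (n : ℤ)) : Fˣ) : F)) (r + (j : ℤ)) =
          vb ϖ ρ x a (r + (j : ℤ)) := by
        refine p1 hϖ h a _ _ ?_
        rw [v_zpow hϖ, WithZero.exp_le_exp]
        omega
      rw [h2, ← two_smul ℂ, map_smul, ih j h1, smul_smul, ← pow_succ']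
      congr 2
      omega

theorem q2 (hϖ : v ϖ = exp (-1 : ℤ)) (h : Harm v ϖ ρ x) (a b : F) (j : ℤ) (hab : v (a * b) < 1)
    (hb : v b * exp (-j) < 1) :
    ρ (om * nU b * om) (vb ϖ ρ x a j) = vb ϖ ρ x (a / (1 + a * b)) j := by
  have h1 : v (1 + a * b) = 1 := Valuation.map_one_add_of_lt _ hab
  have h0 : 1 + a * b ≠ 0 := by
    intro h2
    rw [h2, map_zero] at h1
    exact zero_ne_one h1
  set u : Fˣ := Units.mk0 _ h0 with hu
  have hu' : (u : F) = 1 + a * b := rfl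
  unfold vb
  rw [om_nU_om, ← rmul]
  have h2 := lo_nU_da a b (ϖ ^ j) u hu'
  rw [mul_assoc (sc u)] at h2
  rw [eq_of h (lo_mem ?_) h2, hu']
  · refine da_unit hϖ h _ ?_
    rw [Units.val_div_eq_div_val, Units.val_pow_eq_pow_val, map_div₀, map_pow, v_zpow hϖ, hu', h1,
      one_pow, div_one]
  · rw [Valuation.map_neg, map_div₀, map_mul, v_zpow hϖ, hu', h1, div_one]
    exact hb

end LPx

theorem t_LP : S_LA → S_LP := by
  intro _ F _ v ϖ hϖ _ V _ _ ρ x h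
  exact ⟨fun a r n j hj => LPx.q1 hϖ h a r n j hj, fun a b j h1 h2 => LPx.q2 hϖ h a b j h1 h2⟩

end Pool.Agent.T2h66.LL
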